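import Pool.Agent.H18.HX.Targets
import Pool.Agent.H12.HIT.HIT

/-!
# Row HIG: points with integer coordinates whose fibre is one Galois orbit
(adapted from `Pool.Agent.H12.HIT.pf_HIT`)
-/

set_option autoImplicit false

open MvPolynomial
open Pool.Agent.H12.ZD (pmap v O Res DenseOrbit NoInv)
open Pool.Agent.H18.HIT

namespace Pool.Agent.H13.HX

open Pool.Agent.H18.HX
open Pool.Agent.H12.HIT (lin_eval exists_numberField map_eq_self eval_conj exists_numberField'
  lin_coeff_mem exists_bound)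

/-- Row HIG. -/
theorem pf_HIG (hPEG : T_PEG) (hBER : T_BER) (hHIK : T_HIK) : T_HIG := by
  classical
  intro L N I _ g s c hg halg hc
  obtain ⟨θ, Φ, Δ, R, hΦm, hΦi, hΦθ, hΔ, hR⟩ := hPEG L N Qb I g hg halg
  obtain ⟨y, b, hirr, hcb⟩ := hBER N Φ (c * Δ) hΦm hΦi (mul_ne_zero hc hΔ)
  -- the number field
  obtain ⟨T0, -, hT0⟩ := exists_numberField' (fun q : s => (q : Po L Qb)) ∅
  obtain ⟨T1, hT01, hT1⟩ := exists_numberField' g T0
  obtain ⟨T2, hT12, hT2⟩ := exists_numberField' (fun _ : Unit => Δ) T1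
  obtain ⟨T3, hT23, hT3⟩ := exists_numberField'
    (fun x : (i : Fin L) × Fin ((R i).natDegree + 1) => (R x.1).coeff x.2) T2
  obtain ⟨T4, hT34, hT4⟩ := exists_numberField'
    (fun x : Fin (Φ.natDegree + 1) => Φ.coeff x) T3
  obtain ⟨K, hKfin, hK⟩ := exists_numberField T4
  have hKs := hT0 K fun x hx => hK x (hT34 (hT23 (hT12 (hT01 hx))))
  have hKΔ := hT2 K (fun x hx => hK x (hT34 (hT23 hx))) ()
  have hKR : ∀ i j m, ((R i).coeff j).coeff m ∈ K := by
    intro i j m
    by_cases hj : j < (R i).natDegree + 1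
    · exact hT3 K (fun x hx => hK x (hT34 hx)) ⟨i, ⟨j, hj⟩⟩ m
    · rw [Polynomial.coeff_eq_zero_of_natDegree_lt (by omega), coeff_zero]
      exact zero_mem K
  have hKΦ : ∀ j m, (Φ.coeff j).coeff m ∈ K := by
    intro j m
    by_cases hj : j < Φ.natDegree + 1
    · exact hT4 K hK ⟨j, hj⟩ m
    · rw [Polynomial.coeff_eq_zero_of_natDegree_lt (by omega), coeff_zero]
      exact zero_mem K
  obtain ⟨M, hM⟩ := exists_bound (lin y b (c * Δ)) hcb
  obtain ⟨t, htM, hσ⟩ := hHIK K hKfin (Φ.map (lin y b)) (hΦm.map _) hirr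
    (fun i j => by
      rw [Polynomial.coeff_map]
      exact lin_coeff_mem K y b _ (hKΦ i) j) M
  have ht := hM t htM
  rw [lin_eval, map_mul] at ht
  have htc := left_ne_zero_of_mul ht
  have htΔ := right_ne_zero_of_mul ht
  refine ⟨fun i => y i + t * b i, htc, fun P P' hPI hPI' hP hP' => ?_⟩
  replace hP : ∀ i, eval P (g i) = ((y i + t * b i : ℤ) : AlgebraicClosure ℚ) := hP
  replace hP' : ∀ i, eval P' (g i) = ((y i + t * b i : ℤ) : AlgebraicClosure ℚ) := hP'
  have hev : ∀ (Q : Fin L → AlgebraicClosure ℚ),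
      (∀ i, eval Q (g i) = ((y i + t * b i : ℤ) : AlgebraicClosure ℚ)) →
      ∀ q : MvPolynomial (Fin N) (AlgebraicClosure ℚ), eval Q (aeval g q) =
        eval (fun i => ((y i + t * b i : ℤ) : AlgebraicClosure ℚ)) q := by
    intro Q hQ q
    have h : ((eval Q).comp (aeval g).toRingHom) =
        eval (fun i => ((y i + t * b i : ℤ) : AlgebraicClosure ℚ)) := by
      apply MvPolynomial.ringHom_ext
      · intro r
        simp
      · intro i
        simpa using hQ i
    exact DFunLike.congr_fun h q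
  have hev2 : ∀ (Q : Fin L → AlgebraicClosure ℚ),
      (∀ i, eval Q (g i) = ((y i + t * b i : ℤ) : AlgebraicClosure ℚ)) →
      ∀ q : Polynomial (MvPolynomial (Fin N) (AlgebraicClosure ℚ)),
        eval Q (evg g θ q) =
        (q.map (eval (fun i => ((y i + t * b i : ℤ) : AlgebraicClosure ℚ)))).eval
          (eval Q θ) := by
    intro Q hQ q
    rw [evg, Polynomial.hom_eval₂, Polynomial.eval_map]
    congr 1
    exact RingHom.ext (hev Q hQ)
  have hmap : (Φ.map (lin y b)).map (Polynomial.evalRingHom (t : AlgebraicClosure ℚ)) =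
      Φ.map (eval (fun i => ((y i + t * b i : ℤ) : AlgebraicClosure ℚ))) := by
    rw [Polynomial.map_map]
    congr 1
    exact RingHom.ext fun q => lin_eval y b t q
  rw [hmap] at hσ
  obtain ⟨σ, hσ⟩ := hσ (eval P θ) (eval P' θ)
    (by rw [← hev2 P hP]; exact hPI _ hΦθ) (by rw [← hev2 P' hP']; exact hPI' _ hΦθ)
  refine ⟨σ.toRingEquiv, fun q hq => map_eq_self K σ q (hKs ⟨q, hq⟩), fun i => ?_⟩
  have e1 : eval P (aeval g Δ * X i) = eval P (evg g θ (R i)) := by
    have h := hPI _ (hR i)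
    rwa [map_sub, sub_eq_zero] at h
  have e2 : eval P' (aeval g Δ * X i) = eval P' (evg g θ (R i)) := by
    have h := hPI' _ (hR i)
    rwa [map_sub, sub_eq_zero] at h
  rw [hev2 P hP, map_mul, hev P hP, eval_X] at e1
  rw [hev2 P' hP', map_mul, hev P' hP', eval_X] at e2
  have hz : ∀ q : MvPolynomial (Fin N) (AlgebraicClosure ℚ), (∀ m, q.coeff m ∈ K) →
      σ (eval (fun i => ((y i + t * b i : ℤ) : AlgebraicClosure ℚ)) q) =
        eval (fun i => ((y i + t * b i : ℤ) : AlgebraicClosure ℚ)) q := by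
    intro q hq
    rw [eval_conj K σ q hq]
    congr 1
    congr 1
    funext i
    exact map_intCast σ _
  have e3 := congrArg σ e1
  rw [map_mul, hz Δ hKΔ] at e3
  have e4 : σ (((R i).map (eval (fun i => ((y i + t * b i : ℤ) : AlgebraicClosure ℚ)))).eval
      (eval P θ)) = ((R i).map (eval (fun i => ((y i + t * b i : ℤ) :
        AlgebraicClosure ℚ)))).eval (eval P' θ) := by
    rw [Polynomial.eval_eq_sum_range, Polynomial.eval_eq_sum_range, map_sum]
    refine Finset.sum_congr rfl fun j _ => ?_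
    rw [map_mul, map_pow, hσ, Polynomial.coeff_map, hz _ (hKR i j)]
  rw [e4, ← e2] at e3
  exact mul_left_cancel₀ htΔ e3

end Pool.Agent.H13.HX
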