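import Pool.Agent.H18.HX.Targets

/-!
# Dense orbits on arbitrary varieties: from the algebraic numbers to any algebraically closed field
of characteristic zero

Part K of the board `hx_modules`: `T_X` over the algebraic numbers gives `T_XK` over `k`.
-/

set_option autoImplicit false

open MvPolynomial
open Pool.Agent.H12.ZD (pmap v O Res)
open Pool.Agent.H18.HIT Pool.Agent.H18.HX

namespace Pool.Agent.H13.HX

/-- polynomial identities modulo `P` which describe the fibres of the map `F` of the hypersurface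
`P = 0` by the roots of `Φ` -/
structure CDP {N : ℕ} {k : Type} [Field k] (P : Po (N + 1) k) (F : Tup (N + 1) k) (e D : ℕ)
    (Φ : Polynomial (Po (N + 1) k)) (θ ρ Δ : Po (N + 1) k)
    (R : Fin (N + 1) → Polynomial (Po (N + 1) k)) : Prop where
  monic : Φ.Monic
  nat : Φ.natDegree = e
  degP : P.totalDegree ≤ D
  degF : deg F ≤ D
  degθ : θ.totalDegree ≤ D
  sep : ∃ U V W : Polynomial (Po (N + 1) k),
    U * Φ + V * Polynomial.derivative Φ = Polynomial.C ρ + Polynomial.C P * W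
  onX : ∃ A B : Polynomial (Po (N + 1) k), hev R (Polynomial.C Δ) D P =
    Φ * A + Polynomial.C P * B
  inv : ∀ i, ∃ A B : Polynomial (Po (N + 1) k), hev R (Polynomial.C Δ) D (F i) -
    Polynomial.C (Δ ^ D * X i) = Φ * A + Polynomial.C P * B
  prim : ∃ A B : Polynomial (Po (N + 1) k), hev R (Polynomial.C Δ) D θ -
    Polynomial.C (Δ ^ D) * Polynomial.X = Φ * A + Polynomial.C P * B

/-- CDX: the identities exist; `e` is the degree -/
def T_CDX : Prop := ∀ (N e : ℕ) (k : Type) [Field k] [CharZero k] (P : Po (N + 1) k)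
  (F : Tup (N + 1) k) (θ : Po (N + 1) k), Irreducible P → Slf (Ideal.span {P}) F →
  1 ≤ e →
  (∀ u : Po (N + 1) k, ∃ (s : Po (N + 1) k) (c : Fin e → Po (N + 1) k), s ∉ Ideal.span {P} ∧
      aeval F s * u - ∑ j : Fin e, θ ^ (j : ℕ) * aeval F (c j) ∈ Ideal.span {P}) →
  (∀ c : Fin e → Po (N + 1) k, (∑ j : Fin e, θ ^ (j : ℕ) * aeval F (c j)) ∈ Ideal.span {P} →
      ∀ j, c j ∈ Ideal.span {P}) →
  ∃ (D : ℕ) (Φ : Polynomial (Po (N + 1) k)) (θ' ρ Δ : Po (N + 1) k)
    (R : Fin (N + 1) → Polynomial (Po (N + 1) k)), ¬ P ∣ ρ ∧ ¬ P ∣ Δ ∧ CDP P F e D Φ θ' ρ Δ R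

/-- CDC: the identities give preimages -/
def T_CDC : Prop := ∀ (N e D : ℕ) (k : Type) [Field k] [IsAlgClosed k] (P : Po (N + 1) k)
  (F : Tup (N + 1) k) (Φ : Polynomial (Po (N + 1) k)) (θ ρ Δ : Po (N + 1) k)
  (R : Fin (N + 1) → Polynomial (Po (N + 1) k)), Irreducible P → ¬ P ∣ ρ → ¬ P ∣ Δ →
  CDP P F e D Φ θ ρ Δ R → Cvi (Ideal.span {P}) F e

/-- CDV: the number of preimages is at most the degree -/
def T_CDV : Prop := ∀ (L e e' : ℕ) (k : Type) [Field k] [IsAlgClosed k] (I : Ideal (Po L k))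
  [I.IsPrime] (f : Tup L k) (θ : Po L k), Cvi I f e → 1 ≤ e' →
  (∀ u : Po L k, ∃ (s : Po L k) (c : Fin e' → Po L k), s ∉ I ∧
      aeval f s * u - ∑ j : Fin e', θ ^ (j : ℕ) * aeval f (c j) ∈ I) → e ≤ e'

/-- IRS: irreducibility is preserved by specializations of a ring which contains finitely many
given elements -/
def T_IRS : Prop := ∀ (L r : ℕ) (k : Type) [Field k] [IsAlgClosed k] (P : Po L k), 1 ≤ r →
  P.totalDegree = r → Irreducible P → ∃ S : Finset k, ∀ (K : Type) [Field K] (A : Subring k)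
  (φ : A →+* K), (∀ s ∈ S, s ∈ A) → ∀ P₀ : Po L A, map A.subtype P₀ = P →
  (map φ P₀).totalDegree = r → Irreducible (map φ P₀)

/-- NDS: specializations for which a suitable non-zero element stays non-zero preserve
`¬ P ∣ b` -/
def T_NDS : Prop := ∀ (N : ℕ) (k : Type) [Field k] (P b : Po (N + 1) k), Mny P → ¬ P ∣ b →
  ∃ ε : k, ε ≠ 0 ∧ ∀ (K : Type) [Field K] (A : Subring k) (φ : A →+* K) (hε : ε ∈ A),
    φ ⟨ε, hε⟩ ≠ 0 → ∀ P₀ b₀ : Po (N + 1) A, Mny P₀ → map A.subtype P₀ = P →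
    map A.subtype b₀ = b → ¬ map φ P₀ ∣ map φ b₀

/-- RLX: a point of the specialized hypersurface is the specialization of a point -/
def T_RLX : Prop := ∀ (N : ℕ) (k : Type) [Field k] [IsAlgClosed k] (A : Subring k)
  (φ : A →+* Qb) (P : Po (N + 1) A), Mny P → ∀ (x' : Fin (N + 1) → Qb) (w : Fin N → A),
  eval x' (map φ P) = 0 → (∀ i, φ (w i) = x' i.succ) →
  ∃ (A' : Subring k) (h : A ≤ A') (φ' : A' →+* Qb) (t : A'),
    (∀ a : A, φ' (Subring.inclusion h a) = φ a) ∧ φ' t = x' 0 ∧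
    eval (Fin.cons t (fun i => Subring.inclusion h (w i)) : Fin (N + 1) → A')
      (map (Subring.inclusion h) P) = 0

/-- DNX: density of the orbit is inherited from the specialization -/
def T_DNX : Prop := ∀ (N : ℕ) (k : Type) [Field k] (A : Subring k) (φ : A →+* Qb)
  (P : Po (N + 1) A) (F : Tup (N + 1) A) (x : Fin (N + 1) → A), Mny P →
  (∀ n : ℕ, eval ((pmap F)^[n] x) P = 0) →
  (∀ c : Po (N + 1) Qb, (∀ n : ℕ, eval ((pmap (mp φ F))^[n] (fun i => φ (x i))) c = 0) →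
    map φ P ∣ c) →
  ∀ c : Po (N + 1) k, (∀ n : ℕ, eval ((pmap (mp A.subtype F))^[n] (fun i => (x i : k))) c = 0) →
    map A.subtype P ∣ c

/-- XK: Theorem X over every algebraically closed field of characteristic zero -/
def T_XK : Prop := ∀ (k : Type) [Field k] [IsAlgClosed k] [CharZero k] (N r d e : ℕ)
  (P b : Po (N + 1) k) (F : Tup (N + 1) k), 1 ≤ N → Hyp P r →
  r ≤ d → (∀ i, (F i).IsHomogeneous d) → P ∣ aeval F P → Cvi (Ideal.span {P}) F e →
  d ^ (N - 1) < e → (∃ m, b.IsHomogeneous m) → ¬ P ∣ b →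
  ∃ x : Fin (N + 1) → k, eval x P = 0 ∧ (∀ n : ℕ, eval ((pmap F)^[n] x) b ≠ 0) ∧
    ∀ c : Po (N + 1) k, (∀ n : ℕ, eval ((pmap F)^[n] x) c = 0) → P ∣ c

end Pool.Agent.H13.HX
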