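import Pool.Agent.H13.HX.TargetsK
import Pool.Agent.H69.HIT.SPD
import Pool.Agent.H91.HX.NSI

/-!
# Dense orbits on arbitrary varieties: Theorem X over every algebraically closed field
-/

set_option autoImplicit false

open MvPolynomial
open Pool.Agent.H12.ZD (pmap v O Res)
open Pool.Agent.H18.HIT Pool.Agent.H18.HX
open Pool.Agent.H69.HIT (lift_mv lift_poly cf2 cf2_finite mem_of_cf2 map_hev' map_eval' map_iter
  deg_mp_le deg_mp_inj)

namespace Pool.Agent.H13.HX

theorem finSucc_map {R S : Type} [CommRing R] [CommRing S] (φ : R →+* S) {N : ℕ}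
    (q : Po (N + 1) R) : finSuccEquiv S N (map φ q) = (finSuccEquiv R N q).map (map φ) := by
  ext i m
  rw [finSuccEquiv_coeff_coeff, coeff_map, Polynomial.coeff_map, coeff_map,
    finSuccEquiv_coeff_coeff]

theorem mny_map {R S : Type} [CommRing R] [CommRing S] (φ : R →+* S) {N : ℕ}
    {P : Po (N + 1) R} (h : Mny P) : Mny (map φ P) := by
  rw [Mny, finSucc_map]
  exact h.map _

theorem mny_of_map {R S : Type} [CommRing R] [CommRing S] (φ : R →+* S)
    (hφ : Function.Injective φ) {N : ℕ} {P : Po (N + 1) R} (h : Mny (map φ P)) : Mny P := by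
  rw [Mny, finSucc_map] at h
  exact Polynomial.monic_of_injective (map_injective _ hφ) h

theorem aeval_map_mp {R S : Type} [CommRing R] [CommRing S] (φ : R →+* S) {N : ℕ}
    (F : Tup N R) (q : Po N R) : map φ (aeval F q) = aeval (mp φ F) (map φ q) := by
  induction q using MvPolynomial.induction_on with
  | C a => simp
  | add p q hp hq => rw [map_add, map_add, map_add, map_add, hp, hq]
  | mul_X p i hp =>
    rw [map_mul, map_mul, map_mul, map_mul, hp, aeval_X, map_X, aeval_X]
    rfl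

theorem homog_of_map {R S : Type} [CommRing R] [CommRing S] (φ : R →+* S)
    (hφ : Function.Injective φ) {N m : ℕ} {q : Po N R} (h : (map φ q).IsHomogeneous m) :
    q.IsHomogeneous m := by
  intro d hd
  apply h
  rw [coeff_map]
  intro h0
  exact hd (hφ (by rw [h0, map_zero]))

theorem totalDegree_eq_of_hom {k : Type} [Field k] {N r : ℕ} {P : Po (N + 1) k}
    (hP : P.IsHomogeneous r) (hm : Mny P) : P.totalDegree = r := by
  refine hP.totalDegree ?_
  intro h0
  rw [Mny, h0, map_zero] at hm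
  exact Polynomial.not_monic_zero hm

theorem slf_of_cvi {L : ℕ} {k : Type} [Field k] [IsAlgClosed k] {I : Ideal (Po L k)}
    [hI : I.IsPrime] {f : Tup L k} {e : ℕ} (he : 1 ≤ e) (hinv : ∀ c ∈ I, aeval f c ∈ I)
    (h : Cvi I f e) : Slf I f := by
  obtain ⟨c, hc, hcov⟩ := h
  refine ⟨hinv, fun q hq => ?_⟩
  by_contra hq'
  have h1 : c * q ∉ I := fun h => (hI.mem_or_mem h).elim hc hq'
  obtain ⟨y, hy, hy'⟩ := Pool.Agent.H91.HX.pf_NSI L k I (c * q) h1
  rw [map_mul] at hy'
  obtain ⟨S, hS, hS'⟩ := hcov y hy (left_ne_zero_of_mul hy')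
  obtain ⟨x, hx⟩ : S.Nonempty := Finset.card_pos.1 (by omega)
  obtain ⟨hx1, hx2⟩ := hS' x hx
  have h2 := hx1 _ hq
  rw [eval_aeval, hx2] at h2
  exact right_ne_zero_of_mul hy' h2

theorem pf_XK (hPEI : T_PEI) (hX : T_X) (hCDX : T_CDX) (hCDC : T_CDC) (hCDV : T_CDV)
    (hIRS : T_IRS) (hNDS : T_NDS) (hRLX : T_RLX) (hDNX : T_DNX) : T_XK := by
  classical
  intro k _ _ _ N r d e P b F hN hyp hrd hF hPF hcov hde hbm hPb
  have hP0 : P ≠ 0 := hyp.irr.ne_zero
  have hI : (Ideal.span {P}).IsPrime := (Ideal.span_singleton_prime hP0).2 hyp.irr.prime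
  have he : 1 ≤ e := Nat.one_le_iff_ne_zero.mpr (by omega)
  have hinv : ∀ c ∈ Ideal.span {P}, aeval F c ∈ Ideal.span {P} := by
    intro c hc
    rw [Ideal.mem_span_singleton] at hc ⊢
    exact hPF.trans (map_dvd (aeval F : Po (N + 1) k →ₐ[k] Po (N + 1) k) hc)
  have hslf := slf_of_cvi he hinv hcov
  obtain ⟨e', θ₀, he', hgen, hind⟩ := hPEI (N + 1) k (Ideal.span {P}) F hslf
  have hee' : e ≤ e' := hCDV (N + 1) e e' k (Ideal.span {P}) F θ₀ hcov he' hgen
  obtain ⟨D, Φ, θ, ρ, Δ, R, hρ, hΔ, hC⟩ := hCDX N e' k P F θ₀ hyp.irr hslf he' hgen hind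
  obtain ⟨U, V, W, hUV⟩ := hC.sep
  obtain ⟨A1, B1, h1⟩ := hC.onX
  have hinv2 := hC.inv
  choose A2 B2 h2 using hinv2
  obtain ⟨A3, B3, h3⟩ := hC.prim
  obtain ⟨W0, hW0⟩ := hPF
  have hdegP : P.totalDegree = r := totalDegree_eq_of_hom hyp.hom hyp.mon
  have hr : 1 ≤ r := by
    by_contra hlt
    have h0 : P.totalDegree = 0 := by omega
    rw [totalDegree_eq_zero_iff_eq_C] at h0
    apply hyp.irr.not_isUnit
    rw [h0]
    refine (IsUnit.mk0 _ ?_).map C
    intro hc
    rw [hc, C_0] at h0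
    exact hP0 h0
  obtain ⟨SI, hSI⟩ := hIRS (N + 1) r k P hr hdegP hyp.irr
  obtain ⟨εb, hεb, hεb'⟩ := hNDS N k P b hyp.mon hPb
  obtain ⟨ερ, hερ, hερ'⟩ := hNDS N k P ρ hyp.mon hρ
  obtain ⟨εΔ, hεΔ, hεΔ'⟩ := hNDS N k P Δ hyp.mon hΔ
  -- all polynomials
  set PP : Set (Polynomial (Po (N + 1) k)) := {Polynomial.C b, Polynomial.C P, Polynomial.C W0,
    Φ, Polynomial.C θ, Polynomial.C ρ, Polynomial.C Δ, U, V, W, A1, B1, A3, B3} ∪
      (Set.range (fun i => Polynomial.C (F i)) ∪ (Set.range R ∪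
      (Set.range A2 ∪ Set.range B2))) with hPP
  have hPPf : PP.Finite := by
    refine Set.Finite.union (by simp) (Set.Finite.union (Set.finite_range _)
      (Set.Finite.union (Set.finite_range _) (Set.Finite.union (Set.finite_range _)
        (Set.finite_range _))))
  have hSf : (⋃ Q ∈ PP, cf2 Q).Finite := hPPf.biUnion fun Q _ => cf2_finite Q
  obtain ⟨ι, A, φ, hSA, hE, hEA, hι, -⟩ := Pool.Agent.H14.ZA.pf_SPC k (hSf.toFinset ∪ SI)
    {εb, ερ, εΔ} (by
      intro ε hε
      simp only [Finset.mem_insert, Finset.mem_singleton] at hε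
      rcases hε with rfl | rfl | rfl
      · exact hεb
      · exact hερ
      · exact hεΔ)
  have hA : ∀ Q ∈ PP, ∀ n m, coeff m (Q.coeff n) ∈ A := by
    intro Q hQ
    refine mem_of_cf2 A Q fun c hc => ?_
    refine hSA c (Finset.mem_union_left _ ?_)
    rw [Set.Finite.mem_toFinset]
    exact Set.mem_biUnion hQ hc
  have hliftC : ∀ q : Po (N + 1) k, Polynomial.C q ∈ PP → ∃ qA : Po (N + 1) A,
      map A.subtype qA = q := by
    intro q hq
    refine lift_mv A q fun m => ?_
    have h1 := hA _ hq 0 m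
    rwa [Polynomial.coeff_C_zero] at h1
  have hlift : ∀ Q ∈ PP, ∃ QA : Polynomial (Po (N + 1) A), QA.map (map A.subtype) = Q :=
    fun Q hQ => lift_poly A Q (hA Q hQ)
  obtain ⟨bA, hbA⟩ := hliftC b (Or.inl (by simp))
  obtain ⟨PA, hPA⟩ := hliftC P (Or.inl (by simp))
  obtain ⟨W0A, hW0A⟩ := hliftC W0 (Or.inl (by simp))
  obtain ⟨θA, hθA⟩ := hliftC θ (Or.inl (by simp))
  obtain ⟨ρA, hρA⟩ := hliftC ρ (Or.inl (by simp))
  obtain ⟨ΔA, hΔA⟩ := hliftC Δ (Or.inl (by simp))
  obtain ⟨ΦA, hΦA⟩ := hlift Φ (Or.inl (by simp))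
  obtain ⟨UA, hUA⟩ := hlift U (Or.inl (by simp))
  obtain ⟨VA, hVA⟩ := hlift V (Or.inl (by simp))
  obtain ⟨WA, hWA⟩ := hlift W (Or.inl (by simp))
  obtain ⟨A1A, hA1A⟩ := hlift A1 (Or.inl (by simp))
  obtain ⟨B1A, hB1A⟩ := hlift B1 (Or.inl (by simp))
  obtain ⟨A3A, hA3A⟩ := hlift A3 (Or.inl (by simp))
  obtain ⟨B3A, hB3A⟩ := hlift B3 (Or.inl (by simp))
  have hfex : ∀ i, ∃ qA : Po (N + 1) A, map A.subtype qA = F i := fun i =>
    hliftC (F i) (Or.inr (Or.inl ⟨i, rfl⟩))
  choose FA hFA using hfex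
  have hRex : ∀ i, ∃ QA : Polynomial (Po (N + 1) A), QA.map (map A.subtype) = R i := fun i =>
    hlift (R i) (Or.inr (Or.inr (Or.inl ⟨i, rfl⟩)))
  choose RA hRA using hRex
  have hA2ex : ∀ i, ∃ QA : Polynomial (Po (N + 1) A), QA.map (map A.subtype) = A2 i := fun i =>
    hlift (A2 i) (Or.inr (Or.inr (Or.inr (Or.inl ⟨i, rfl⟩))))
  choose A2A hA2A using hA2ex
  have hB2ex : ∀ i, ∃ QA : Polynomial (Po (N + 1) A), QA.map (map A.subtype) = B2 i := fun i =>
    hlift (B2 i) (Or.inr (Or.inr (Or.inr (Or.inr ⟨i, rfl⟩))))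
  choose B2A hB2A using hB2ex
  -- the maps
  have hμ : Function.Injective (map A.subtype : Po (N + 1) A →+* Po (N + 1) k) :=
    map_injective _ A.subtype_injective
  have hM : Function.Injective
      (Polynomial.mapRingHom (map A.subtype : Po (N + 1) A →+* Po (N + 1) k)) := by
    rw [Polynomial.coe_mapRingHom]
    exact Polynomial.map_injective _ hμ
  have hMk : ∀ c : A, Polynomial.mapRingHom (map A.subtype : Po (N + 1) A →+* Po (N + 1) k)
      (algebraMap A (Polynomial (Po (N + 1) A)) c) =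
        algebraMap k (Polynomial (Po (N + 1) k)) (A.subtype c) := by
    intro c
    have h1 : algebraMap A (Polynomial (Po (N + 1) A)) c = Polynomial.C (C c) := rfl
    have h2 : algebraMap k (Polynomial (Po (N + 1) k)) (A.subtype c) =
      Polynomial.C (C (A.subtype c)) := rfl
    rw [h1, h2, Polynomial.coe_mapRingHom, Polynomial.map_C, map_C]
  have hMQ : ∀ c : A, Polynomial.mapRingHom (map φ : Po (N + 1) A →+* Po (N + 1) Qb)
      (algebraMap A (Polynomial (Po (N + 1) A)) c) =
        algebraMap Qb (Polynomial (Po (N + 1) Qb)) (φ c) := by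
    intro c
    have h1 : algebraMap A (Polynomial (Po (N + 1) A)) c = Polynomial.C (C c) := rfl
    have h2 : algebraMap Qb (Polynomial (Po (N + 1) Qb)) (φ c) = Polynomial.C (C (φ c)) := rfl
    rw [h1, h2, Polynomial.coe_mapRingHom, Polynomial.map_C, map_C]
  have hFmp : mp A.subtype FA = F := funext hFA
  -- the identities over `A`
  have hmonA : ΦA.Monic := by
    refine Polynomial.monic_of_injective hμ ?_
    rw [hΦA]
    exact hC.monic
  have hnatA : ΦA.natDegree = e' := by
    rw [← Polynomial.natDegree_map_eq_of_injective hμ ΦA, hΦA]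
    exact hC.nat
  have hsepA : UA * ΦA + VA * Polynomial.derivative ΦA =
      Polynomial.C ρA + Polynomial.C PA * WA := by
    apply hM
    rw [map_add, map_mul, map_mul, map_add, map_mul, Polynomial.coe_mapRingHom,
      ← Polynomial.derivative_map, Polynomial.map_C, Polynomial.map_C, hUA, hΦA, hVA, hρA, hPA,
      hWA]
    exact hUV
  have honA : hev RA (Polynomial.C ΔA) D PA = ΦA * A1A + Polynomial.C PA * B1A := by
    apply hM
    rw [map_hev' A.subtype _ hMk]
    simp only [Polynomial.coe_mapRingHom, Polynomial.map_C, hRA, hΔA, hPA, Polynomial.map_add,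
      Polynomial.map_mul, hΦA, hA1A, hB1A]
    exact h1
  have hinvA : ∀ i, hev RA (Polynomial.C ΔA) D (FA i) - Polynomial.C (ΔA ^ D * X i) =
      ΦA * A2A i + Polynomial.C PA * B2A i := by
    intro i
    apply hM
    rw [map_sub, map_hev' A.subtype _ hMk]
    simp only [Polynomial.coe_mapRingHom, Polynomial.map_C, hRA, hΔA, hFA, hPA, map_mul, map_pow,
      map_X, Polynomial.map_mul, Polynomial.map_add, hΦA, hA2A, hB2A, Polynomial.map_pow]
    have h4 := h2 i
    simp only [map_mul, map_pow] at h4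
    exact h4
  have hprimA : hev RA (Polynomial.C ΔA) D θA - Polynomial.C (ΔA ^ D) * Polynomial.X =
      ΦA * A3A + Polynomial.C PA * B3A := by
    apply hM
    rw [map_sub, map_hev' A.subtype _ hMk]
    simp only [Polynomial.coe_mapRingHom, Polynomial.map_C, hRA, hΔA, hθA, hPA, map_pow,
      Polynomial.map_mul, Polynomial.map_add, hΦA, hA3A, hB3A, Polynomial.map_X,
      Polynomial.map_pow]
    have h4 := h3
    simp only [map_pow] at h4
    exact h4
  -- the specialized hypersurface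
  have hmnyA : Mny PA := mny_of_map A.subtype A.subtype_injective (by rw [hPA]; exact hyp.mon)
  have hmny : Mny (map φ PA) := mny_map φ hmnyA
  have hhomA : PA.IsHomogeneous r :=
    homog_of_map A.subtype A.subtype_injective (by rw [hPA]; exact hyp.hom)
  have hhom : (map φ PA).IsHomogeneous r := hhomA.map φ
  have hdeg' : (map φ PA).totalDegree = r := totalDegree_eq_of_hom hhom hmny
  have hirr : Irreducible (map φ PA) :=
    hSI Qb A φ (fun s hs => hSA s (Finset.mem_union_right _ hs)) PA hPA hdeg'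
  have hρ' : ¬ map φ PA ∣ map φ ρA :=
    hερ' Qb A φ (hEA ερ (by simp)) (hE ερ _ (by simp)) PA ρA hmnyA hPA hρA
  have hΔ' : ¬ map φ PA ∣ map φ ΔA :=
    hεΔ' Qb A φ (hEA εΔ (by simp)) (hE εΔ _ (by simp)) PA ΔA hmnyA hPA hΔA
  have hb' : ¬ map φ PA ∣ map φ bA :=
    hεb' Qb A φ (hEA εb (by simp)) (hE εb _ (by simp)) PA bA hmnyA hPA hbA
  have hdegq : ∀ qA : Po (N + 1) A, (map φ qA).totalDegree ≤ (map A.subtype qA).totalDegree := by
    intro qA
    rw [deg_mp_inj _ A.subtype_injective]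
    exact deg_mp_le φ _
  have hdegF : deg (mp φ FA) ≤ D := by
    refine le_trans (deg_le fun i => ?_) hC.degF
    refine (hdegq (FA i)).trans ?_
    rw [hFA]
    exact totalDegree_le_deg F i
  have hCDP : CDP (map φ PA) (mp φ FA) e' D (ΦA.map (map φ)) (map φ θA) (map φ ρA) (map φ ΔA)
      (fun i => (RA i).map (map φ)) := by
    refine ⟨hmonA.map _, ?_, ?_, hdegF, ?_, ?_, ?_, ?_, ?_⟩
    · rw [hmonA.natDegree_map, hnatA]
    · refine (hdegq PA).trans ?_
      rw [hPA]
      exact hC.degP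
    · refine (hdegq θA).trans ?_
      rw [hθA]
      exact hC.degθ
    · refine ⟨UA.map (map φ), VA.map (map φ), WA.map (map φ), ?_⟩
      have h4 := congrArg (Polynomial.map (map φ : Po (N + 1) A →+* Po (N + 1) Qb)) hsepA
      rw [Polynomial.map_add, Polynomial.map_mul, Polynomial.map_mul, Polynomial.map_add,
        Polynomial.map_mul, Polynomial.map_C, Polynomial.map_C, ← Polynomial.derivative_map] at h4
      exact h4
    · refine ⟨A1A.map (map φ), B1A.map (map φ), ?_⟩
      have h4 := congrArg (Polynomial.mapRingHom (map φ : Po (N + 1) A →+* Po (N + 1) Qb)) honA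
      rw [map_hev' φ _ hMQ] at h4
      simp only [Polynomial.coe_mapRingHom, Polynomial.map_C, Polynomial.map_mul,
        Polynomial.map_add] at h4
      exact h4
    · intro i
      refine ⟨(A2A i).map (map φ), (B2A i).map (map φ), ?_⟩
      have h4 := congrArg (Polynomial.mapRingHom (map φ : Po (N + 1) A →+* Po (N + 1) Qb))
        (hinvA i)
      rw [map_sub, map_hev' φ _ hMQ] at h4
      simp only [Polynomial.coe_mapRingHom, Polynomial.map_C, map_mul, map_pow,
        map_X, Polynomial.map_mul, Polynomial.map_pow, Polynomial.map_add] at h4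
      simp only [map_mul, map_pow]
      exact h4
    · refine ⟨A3A.map (map φ), B3A.map (map φ), ?_⟩
      have h4 := congrArg (Polynomial.mapRingHom (map φ : Po (N + 1) A →+* Po (N + 1) Qb)) hprimA
      rw [map_sub, map_hev' φ _ hMQ] at h4
      simp only [Polynomial.coe_mapRingHom, Polynomial.map_C, map_mul, map_pow,
        Polynomial.map_X, Polynomial.map_mul, Polynomial.map_pow, Polynomial.map_add] at h4
      simp only [map_pow]
      exact h4
  have hcov' : Cvi (Ideal.span {map φ PA}) (mp φ FA) e' :=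
    hCDC N e' D Qb (map φ PA) (mp φ FA) _ _ _ _ _ hirr hρ' hΔ' hCDP
  have hPFA : aeval FA PA = PA * W0A := by
    apply hμ
    rw [aeval_map_mp, hFmp, hPA, map_mul, hPA, hW0A]
    exact hW0
  have hPF' : map φ PA ∣ aeval (mp φ FA) (map φ PA) := by
    rw [← aeval_map_mp, hPFA, map_mul]
    exact Dvd.intro _ rfl
  have hF' : ∀ i, (mp φ FA i).IsHomogeneous d := fun i =>
    (homog_of_map A.subtype A.subtype_injective (by rw [hFA]; exact hF i)).map φ
  obtain ⟨m, hm⟩ := hbm
  have hbm' : (map φ bA).IsHomogeneous m :=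
    (homog_of_map A.subtype A.subtype_injective (by rw [hbA]; exact hm)).map φ
  obtain ⟨x', hx'P, hx'b, hx'd⟩ := hX N r d e' (map φ PA) (map φ bA) (mp φ FA) hN
    ⟨hhom, hmny, hirr⟩ hrd hF' hPF' hcov' (lt_of_lt_of_le hde hee') ⟨m, hbm'⟩ hb'
  -- the point
  set w : Fin N → A := fun i => ⟨ι (x' i.succ), (hι (x' i.succ)).1⟩ with hw
  obtain ⟨A', hAA', φ', t, hφ', ht, hroot⟩ := hRLX N k A φ PA hmnyA x' w hx'P
    (fun i => (hι (x' i.succ)).2)
  set J : A →+* A' := Subring.inclusion hAA' with hJ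
  have hJs : A'.subtype.comp J = A.subtype := rfl
  have hJφ : φ'.comp J = φ := RingHom.ext hφ'
  set x : Fin (N + 1) → A' := Fin.cons t (fun i => J (w i)) with hx
  have hφx : (fun i => φ' (x i)) = x' := by
    funext i
    refine Fin.cases ?_ (fun j => ?_) i
    · rw [hx, Fin.cons_zero]
      exact ht
    · rw [hx, Fin.cons_succ, hφ']
      exact (hι (x' j.succ)).2
  have hms : ∀ q : Po (N + 1) A, map A'.subtype (map J q) = map A.subtype q := by
    intro q
    rw [map_map, hJs]
  have hmφ : ∀ q : Po (N + 1) A, map φ' (map J q) = map φ q := by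
    intro q
    rw [map_map, hJφ]
  have hmps : mp A'.subtype (mp J FA) = F := by
    funext i
    exact (hms (FA i)).trans (hFA i)
  have hmpφ : mp φ' (mp J FA) = mp φ FA := by
    funext i
    exact hmφ (FA i)
  have horb : ∀ n : ℕ, eval ((pmap (mp J FA))^[n] x) (map J PA) = 0 := by
    intro n
    induction n with
    | zero => exact hroot
    | succ n ih =>
      rw [Function.iterate_succ_apply', ← eval_aeval, ← aeval_map_mp, hPFA, map_mul, map_mul, ih,
        zero_mul]
  have hdense := hDNX N k A' φ' (map J PA) (mp J FA) x (mny_map J hmnyA) horb (by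
    rw [hmpφ, hφx, hmφ]
    exact hx'd)
  rw [hmps, hms, hPA] at hdense
  refine ⟨fun i => (x i : k), ?_, ?_, hdense⟩
  · have h4 := map_eval' A'.subtype x (map J PA)
    rw [hms, hPA, hroot, map_zero] at h4
    exact h4.symm
  · intro n hn
    apply hx'b n
    have h4 : (pmap F)^[n] (fun i => (x i : k)) =
        fun i => (((pmap (mp J FA))^[n] x i : A') : k) := by
      rw [← hmps]
      exact (map_iter A'.subtype (mp J FA) x n).symm
    have h5 : (pmap (mp φ FA))^[n] x' = fun i => φ' ((pmap (mp J FA))^[n] x i) := by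
      rw [map_iter φ' (mp J FA) x n, hφx, hmpφ]
    have h6 : eval ((pmap (mp J FA))^[n] x) (map J bA) = 0 := by
      apply A'.subtype_injective
      rw [map_eval' A'.subtype, hms, hbA, map_zero]
      rw [h4] at hn
      exact hn
    rw [h5, ← hmφ bA, ← map_eval' φ', h6, map_zero]

end Pool.Agent.H13.HX
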